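import Pool.Agent.H32.RK.TargetsA
import Pool.Agent.H32.RK.TargetsB

/-!
# MP_63b6b1_nt over number fields, row PAG: the number of pairs of good vectors
helper82
-/

set_option autoImplicit false

open Finset NumberField Pool.Agent.H32.RQ Pool.Agent.H32.RK

namespace Pool.Agent.H82.RK

theorem pf_PAG (K : Type) [Field K] [NumberField K] (hPCN : T_PCN K) (hUPP : T_UPP K) :
    T_PAG K := by
  classical
  intro s
  obtain ⟨C2, hC2, hP⟩ := hPCN s
  obtain ⟨C0, hC0, hU⟩ := hUPP
  refine ⟨C0 * 4 ^ dg K * C2, ?_, ?_⟩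
  · have h4 : (1 : ℝ) ≤ 4 ^ dg K := one_le_pow₀ (by norm_num)
    nlinarith [mul_le_mul hC0 h4 zero_le_one (by linarith : (0 : ℝ) ≤ C0),
      mul_le_mul (mul_le_mul hC0 h4 zero_le_one (by linarith : (0 : ℝ) ≤ C0)) hC2 zero_le_one
        (by positivity)]
  intro b c 𝔤 D S hb h𝔤 hD hS
  have hb1 : (1 : ℝ) ≤ b := by exact_mod_cast hb
  have hB1 : (1 : ℝ) ≤ (b : ℝ) ^ 4 := one_le_pow₀ hb1
  have hB0 : (0 : ℝ) < (b : ℝ) ^ 4 := by linarith
  -- coefficients for primitive vectors
  have hch : ∀ x : Fin s → 𝓞 K, ∃ a : Fin s → 𝓞 K, Prm x → ∑ i, a i * x i = 1 := by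
    intro x
    by_cases h : Prm x
    · obtain ⟨a, ha⟩ := h
      exact ⟨a, fun _ => ha⟩
    · exact ⟨0, fun h' => absurd h' h⟩
  choose A hA using hch
  let co : (Fin s → 𝓞 K) × (Fin s → 𝓞 K) → 𝓞 K := fun q => ∑ i, A q.1 i * q.2 i
  let Φ : (Fin s → 𝓞 K) × (Fin s → 𝓞 K) → (Fin s → 𝓞 K) × (Fin s → 𝓞 K) :=
    fun q => (q.1, fun j => q.2 j - co q * q.1 j)
  have hco : ∀ q ∈ S, ∑ i, A q.1 i * (Φ q).2 i = 0 := by
    intro q hq
    have h1 := hA q.1 (hS q hq).1.prm
    calc ∑ i, A q.1 i * (Φ q).2 i = ∑ i, (A q.1 i * q.2 i - co q * (A q.1 i * q.1 i)) :=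
          Finset.sum_congr rfl fun i _ => by
            change A q.1 i * (q.2 i - co q * q.1 i) = _
            ring
      _ = co q - co q * 1 := by
          rw [Finset.sum_sub_distrib, ← Finset.mul_sum, h1]
      _ = 0 := by ring
  -- the fibres
  have hfib : ∀ p ∈ S.image Φ, (S.filter fun q => Φ q = p).card ≤ ⌊C0 * 4 ^ dg K⌋₊ := by
    intro p _
    apply Nat.le_floor
    have hinj : Set.InjOn co (S.filter fun q => Φ q = p : Finset _) := by
      intro q hq q' hq' hqq
      rw [Finset.mem_coe, Finset.mem_filter] at hq hq'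
      have h1 : Φ q = Φ q' := hq.2.trans hq'.2.symm
      have h2 : q.1 = q'.1 := (congrArg Prod.fst h1 : (Φ q).1 = (Φ q').1)
      have h3 : ∀ j, q.2 j - co q * q.1 j = q'.2 j - co q' * q'.1 j := fun j =>
        congrFun (congrArg Prod.snd h1 : (Φ q).2 = (Φ q').2) j
      refine Prod.ext h2 (funext fun j => ?_)
      have h4 := h3 j
      rw [hqq, h2] at h4
      linear_combination h4
    rw [← Finset.card_image_of_injOn hinj]
    refine hU _ 4 (by norm_num) ?_
    intro t ht t' ht' w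
    obtain ⟨q, hq, rfl⟩ := Finset.mem_image.1 ht
    obtain ⟨q', hq', rfl⟩ := Finset.mem_image.1 ht'
    rw [Finset.mem_filter] at hq hq'
    have h1 : Φ q = Φ q' := hq.2.trans hq'.2.symm
    have h2 : q.1 = q'.1 := (congrArg Prod.fst h1 : (Φ q).1 = (Φ q').1)
    have h3 : ∀ j, q.2 j - co q * q.1 j = q'.2 j - co q' * q'.1 j := fun j =>
      congrFun (congrArg Prod.snd h1 : (Φ q).2 = (Φ q').2) j
    obtain ⟨i, hi⟩ := (hS q hq.1).1.big w
    have h4 : ((co q : K) - (co q' : K)) * (q.1 i : K) = (q.2 i : K) - (q'.2 i : K) := by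
      have h5 := h3 i
      rw [← h2] at h5
      have h6 : (co q - co q') * q.1 i = q.2 i - q'.2 i := by linear_combination -h5
      have h7 := congrArg (fun z : 𝓞 K => (z : K)) h6
      simpa using h7
    have h5 : w ((co q : K) - (co q' : K)) * w (q.1 i : K) ≤ 2 * (b : ℝ) ^ 4 := by
      rw [← map_mul, h4]
      have e1 := (hS q hq.1).2.1.bd i w
      have e2 := (hS q' hq'.1).2.1.bd i w
      have e3 : w ((q.2 i : K) - (q'.2 i : K)) ≤ w (q.2 i : K) + w (q'.2 i : K) := by
        have := w.1.add_le (q.2 i : K) (-(q'.2 i : K))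
        have e4 : w.1 (-(q'.2 i : K)) = w.1 (q'.2 i : K) := w.1.map_neg _
        rw [e4, ← sub_eq_add_neg] at this
        exact this
      linarith
    by_contra hcon
    push Not at hcon
    have h6 : 4 * ((b : ℝ) ^ 4 / 2) < w ((co q : K) - (co q' : K)) * w (q.1 i : K) :=
      mul_lt_mul'' hcon (by linarith) (by norm_num) (by positivity)
    linarith
  have hcard := Finset.card_le_mul_card_image S _ hfib
  -- the image
  have himg := hP ((b : ℝ) ^ 4) 𝔤 D (S.image Φ) hB1 h𝔤 hD (by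
    intro p hp
    obtain ⟨q, hq, rfl⟩ := Finset.mem_image.1 hp
    obtain ⟨g1, g2, g3, g4, g5⟩ := hS q hq
    have hmn : ∀ i j, mnr (Φ q).1 (Φ q).2 i j = mnr q.1 q.2 i j := by
      intro i j
      change mnr q.1 (fun j => q.2 j - co q * q.1 j) i j = mnr q.1 q.2 i j
      simp only [mnr]
      ring
    refine ⟨g1.bd, g1.big, ?_, ?_, ?_⟩
    · intro j
      apply g4
      have h1 := hA q.1 g1.prm
      have h2 : (Φ q).2 j = ∑ i, A q.1 i * mnr q.1 q.2 i j := by
        calc (Φ q).2 j = (∑ i, A q.1 i * q.1 i) * q.2 j - co q * q.1 j := by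
              rw [h1, one_mul]
          _ = ∑ i, A q.1 i * mnr q.1 q.2 i j := by
              simp only [co, mnr]
              rw [Finset.sum_mul, Finset.sum_mul, ← Finset.sum_sub_distrib]
              refine Finset.sum_congr rfl fun i _ => ?_
              ring
      rw [h2]
      refine Ideal.sum_mem _ fun i _ => Ideal.mul_mem_left _ _ ?_
      exact Ideal.subset_span ⟨(i, j), rfl⟩
    · intro i j w
      rw [hmn]
      exact g5 i j w
    · obtain ⟨i, j, hij⟩ := g3
      exact ⟨i, j, by rw [hmn]; exact hij⟩) (by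
    intro p hp p' hp' h1 h2
    obtain ⟨q, hq, rfl⟩ := Finset.mem_image.1 hp
    obtain ⟨q', hq', rfl⟩ := Finset.mem_image.1 hp'
    obtain ⟨t, _, ht⟩ := h2
    have h3 : q.1 = q'.1 := h1
    have e1 := hco q hq
    have e2 := hco q' hq'
    have e3 := hA q.1 (hS q hq).1.prm
    have e4 : t = 0 := by
      calc t = t * ∑ i, A q.1 i * q.1 i := by rw [e3, mul_one]
        _ = ∑ i, A q.1 i * ((Φ q).2 i - (Φ q').2 i) := by
            rw [Finset.mul_sum]
            refine Finset.sum_congr rfl fun i _ => ?_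
            rw [ht i]
            change t * (A q.1 i * q.1 i) = A q.1 i * (t * q.1 i)
            ring
        _ = ∑ i, A q.1 i * (Φ q).2 i - ∑ i, A q'.1 i * (Φ q').2 i := by
            rw [← Finset.sum_sub_distrib]
            refine Finset.sum_congr rfl fun i _ => ?_
            rw [h3]
            ring
        _ = 0 := by rw [e1, e2, sub_zero]
    refine Prod.ext h1 (funext fun i => ?_)
    have := ht i
    rw [e4, zero_mul] at this
    exact sub_eq_zero.1 this)
  have hpm : (0 : ℝ) ≤ (pm D / Ideal.absNorm 𝔤) ^ (s - 1) := by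
    refine pow_nonneg (div_nonneg ?_ (Nat.cast_nonneg _)) _
    exact Finset.prod_nonneg fun w _ => pow_nonneg (hD w).le _
  have hfl : ((⌊C0 * 4 ^ dg K⌋₊ : ℕ) : ℝ) ≤ C0 * 4 ^ dg K := Nat.floor_le (by positivity)
  calc (S.card : ℝ) ≤ (⌊C0 * 4 ^ dg K⌋₊ : ℕ) * ((S.image Φ).card : ℝ) := by exact_mod_cast hcard
    _ ≤ (C0 * 4 ^ dg K) *
        (C2 * ((b : ℝ) ^ 4) ^ (2 * dg K) * (pm D / Ideal.absNorm 𝔤) ^ (s - 1)) :=
        mul_le_mul hfl himg (Nat.cast_nonneg _) (by positivity)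
    _ = C0 * 4 ^ dg K * C2 * (b : ℝ) ^ (8 * dg K) * (pm D / Ideal.absNorm 𝔤) ^ (s - 1) := by
        rw [← pow_mul, show 4 * (2 * dg K) = 8 * dg K by ring]
        ring

end Pool.Agent.H82.RK
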